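import Pool.Agent.H71.EQ.Targets
import Pool.Agent.H40.EQ.BXN
import Pool.Agent.H40.EQ.FXG

/-!
Row BAD: vectors which fail the local condition at all primes which divide a squarefree `m`.
-/

set_option autoImplicit false

open Finset

namespace Pool.Agent.H40.EQQ

open Pool.Agent.H71.EQ Pool.Agent.H40.EQ

variable {k : ℕ}

/-- The vectors with nonzero entries of size at most `R` for which the local condition fails at
all primes dividing `m`. -/
def BadS (k m : ℕ) (R : ℝ) : Set (Fin k → ℤ) :=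
  {v | (∀ i, ext v i ≠ 0 ∧ |(ext v i : ℝ)| ≤ R) ∧ ∀ p : ℕ, p.Prime → p ∣ m → ¬ Loc p 0 (ext v)}

/-- the exponent of `p` at place `i`, for a pair of places -/
def ee {n : ℕ} (s : Fin n × Fin n) (i : Fin n) : ℕ :=
  (if s.1 = i then 1 else 0) + (if s.2 = i then 1 else 0)

lemma sum_ee {n : ℕ} (s : Fin n × Fin n) : ∑ i, ee s i = 2 := by
  simp [ee, Finset.sum_add_distrib]

lemma exists_pair {n p : ℕ} (x : Fin n → ℤ) (h : ¬ Loc p 0 x) :
    ∃ s : Fin n × Fin n, ∀ i, (p : ℤ) ^ ee s i ∣ x i := by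
  unfold Loc at h
  rw [if_pos rfl, not_and_or] at h
  rcases h with h | h
  · push Not at h
    obtain ⟨a, b, hab, ha, hb⟩ := h
    refine ⟨(a, b), fun i => ?_⟩
    by_cases h1 : a = i
    · by_cases h2 : b = i
      · exact absurd (h1.trans h2.symm) hab
      · simp only [ee, if_pos h1, if_neg h2]
        rw [← h1]
        simpa using ha
    · by_cases h2 : b = i
      · simp only [ee, if_neg h1, if_pos h2]
        rw [← h2]
        simpa using hb
      · simp [ee, if_neg h1, if_neg h2]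
  · push Not at h
    obtain ⟨a, ha⟩ := h
    refine ⟨(a, a), fun i => ?_⟩
    by_cases h1 : a = i
    · simp only [ee, if_pos h1]
      rw [← h1]
      simpa using ha
    · simp [ee, if_neg h1]

/-- the divisors which belong to a choice of pairs of places -/
def dv {n : ℕ} (P : Finset ℕ) (s : P → Fin n × Fin n) (i : Fin n) : ℕ :=
  ∏ p : P, (p : ℕ) ^ ee (s p) i

lemma prod_dv {n : ℕ} (m : ℕ) (hm : Squarefree m) (s : m.primeFactors → Fin n × Fin n) :
    ∏ i, dv m.primeFactors s i = m ^ 2 := by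
  unfold dv
  rw [Finset.prod_comm]
  have h1 : ∀ p : m.primeFactors, ∏ i, (p : ℕ) ^ ee (s p) i = (p : ℕ) ^ 2 := by
    intro p
    rw [Finset.prod_pow_eq_pow_sum, sum_ee]
  rw [Finset.prod_congr rfl (fun p _ => h1 p), Finset.prod_pow]
  congr 1
  rw [Finset.prod_coe_sort m.primeFactors (fun p => p)]
  exact Nat.prod_primeFactors_of_squarefree hm

lemma dv_dvd {n m : ℕ} (x : Fin n → ℤ) (s : m.primeFactors → Fin n × Fin n)
    (h : ∀ (p : m.primeFactors) (i : Fin n), ((p : ℕ) : ℤ) ^ ee (s p) i ∣ x i) (i : Fin n) :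
    (dv m.primeFactors s i : ℤ) ∣ x i := by
  unfold dv
  push_cast
  refine Finset.prod_dvd_of_coprime ?_ (fun p _ => h p i)
  intro p _ q _ hpq
  have hp : (p : ℕ).Prime := Nat.prime_of_mem_primeFactors p.2
  have hq : (q : ℕ).Prime := Nat.prime_of_mem_primeFactors q.2
  have hne : (p : ℕ) ≠ q := fun h => hpq (Subtype.ext h)
  exact (Nat.isCoprime_iff_coprime.mpr ((Nat.coprime_primes hp hq).mpr hne)).pow

lemma dv_pos {n m : ℕ} (s : m.primeFactors → Fin n × Fin n) (i : Fin n) :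
    1 ≤ dv m.primeFactors s i := by
  unfold dv
  refine Nat.one_le_iff_ne_zero.mpr (Finset.prod_ne_zero_iff.mpr (fun p _ => ?_))
  exact pow_ne_zero _ (Nat.prime_of_mem_primeFactors p.2).ne_zero

/-- A vector is determined by all entries of `ext v` but one. -/
lemma ext_inj_of (j : Fin (k + 1)) (v w : Fin k → ℤ) (h : ∀ i, i ≠ j → ext v i = ext w i) :
    v = w := by
  have h1 : ext v j = ext w j := by
    have h2 : ∑ i, (ext v i - ext w i) = 0 := by
      rw [Finset.sum_sub_distrib, sum_ext, sum_ext, sub_zero]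
    have h3 : ∑ i, (ext v i - ext w i) = ext v j - ext w j :=
      Fintype.sum_eq_single j (fun i hi => by rw [h i hi, sub_self])
    rw [h3] at h2
    linarith
  funext i
  have h4 : ext v i.castSucc = ext w i.castSucc := by
    by_cases hi : i.castSucc = j
    · rw [hi]; exact h1
    · exact h _ hi
  rwa [ext_castSucc, ext_castSucc] at h4

/-- The number of vectors with given divisors of the entries. -/
lemma cnt_div (d : Fin (k + 1) → ℕ) (hd : ∀ i, 1 ≤ d i) (j : Fin (k + 1)) (R : ℝ) (hR : 0 ≤ R)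
    (F : Finset (Fin k → ℤ))
    (hF : ∀ v ∈ F, ∀ i, ext v i ≠ 0 ∧ |(ext v i : ℝ)| ≤ R ∧ (d i : ℤ) ∣ ext v i) :
    (F.card : ℝ) ≤ (2 * R) ^ k * d j / ∏ i, (d i : ℝ) := by
  classical
  let g : (Fin k → ℤ) → ({i : Fin (k + 1) // i ≠ j} → ℤ) := fun v i => ext v i
  have hinj : Function.Injective g := by
    intro v w hvw
    refine ext_inj_of j v w (fun i hi => ?_)
    exact congrFun hvw ⟨i, hi⟩
  let S : {i : Fin (k + 1) // i ≠ j} → Finset ℤ := fun i => F.image (fun v => ext v i)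
  have hsub : F.image g ⊆ Fintype.piFinset S := by
    intro z hz
    obtain ⟨v, hv, rfl⟩ := Finset.mem_image.mp hz
    rw [Fintype.mem_piFinset]
    intro i
    exact Finset.mem_image_of_mem _ hv
  have h1 : (F.card : ℝ) ≤ ∏ i : {i : Fin (k + 1) // i ≠ j}, ((S i).card : ℝ) := by
    have h2 := Finset.card_le_card hsub
    rw [Finset.card_image_of_injective _ hinj, Fintype.card_piFinset] at h2
    exact_mod_cast h2
  have h3 : ∏ i : {i : Fin (k + 1) // i ≠ j}, ((S i).card : ℝ) ≤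
      ∏ i : {i : Fin (k + 1) // i ≠ j}, (2 * R / d i) := by
    refine Finset.prod_le_prod (fun i _ => Nat.cast_nonneg _) (fun i _ => ?_)
    refine card_mult (d i) (hd i) R hR (S i) ?_
    intro s hs
    obtain ⟨v, hv, rfl⟩ := Finset.mem_image.mp hs
    obtain ⟨a1, a2, a3⟩ := hF v hv i
    exact ⟨a1, a3, a2⟩
  have hdp : ∀ i, (0 : ℝ) < d i := fun i => by exact_mod_cast (lt_of_lt_of_le one_pos (hd i))
  have hcard : Fintype.card {i : Fin (k + 1) // i ≠ j} = k := by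
    rw [Fintype.card_subtype_compl]
    simp
  have h4 : ∏ i : {i : Fin (k + 1) // i ≠ j}, (2 * R / (d i : ℝ)) =
      (2 * R) ^ k / ∏ i : {i : Fin (k + 1) // i ≠ j}, (d i : ℝ) := by
    rw [Finset.prod_div_distrib, Finset.prod_const, Finset.card_univ, hcard]
  have h5 : ∏ i, (d i : ℝ) = (d j : ℝ) * ∏ i : {i : Fin (k + 1) // i ≠ j}, (d i : ℝ) :=
    Fintype.prod_eq_mul_prod_subtype_ne (fun i => (d i : ℝ)) j
  have hP : (0 : ℝ) < ∏ i : {i : Fin (k + 1) // i ≠ j}, (d i : ℝ) :=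
    Finset.prod_pos (fun i _ => hdp i)
  refine (h1.trans h3).trans (le_of_eq ?_)
  rw [h4, h5]
  have := hdp j
  field_simp

lemma min_div (hk : 2 ≤ k) (m : ℕ) (hm : 1 ≤ m) (d : Fin (k + 1) → ℕ) (hd : ∀ i, 1 ≤ d i)
    (hprod : ∏ i, d i = m ^ 2) : ∃ j, (d j : ℝ) ≤ (m : ℝ) ^ (2 / 3 : ℝ) := by
  obtain ⟨j, hj⟩ := Finite.exists_min d
  refine ⟨j, ?_⟩
  have hm1 : (1 : ℝ) ≤ m := by exact_mod_cast hm
  have hm0 : (0 : ℝ) ≤ m := by linarith
  have h1 : (d j) ^ (k + 1) ≤ m ^ 2 := by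
    rw [← hprod]
    calc (d j) ^ (k + 1) = ∏ _i : Fin (k + 1), d j := by simp
      _ ≤ _ := Finset.prod_le_prod (fun i _ => Nat.zero_le _) (fun i _ => hj i)
  have h2 : (d j : ℝ) ^ (k + 1) ≤ (m : ℝ) ^ 2 := by exact_mod_cast h1
  have hd1 : (1 : ℝ) ≤ d j := by exact_mod_cast hd j
  have h3 : (d j : ℝ) ^ 3 ≤ (m : ℝ) ^ 2 :=
    (pow_le_pow_right₀ hd1 (by omega)).trans h2
  have h4 : (d j : ℝ) = ((d j : ℝ) ^ 3) ^ (1 / 3 : ℝ) := by
    rw [← Real.rpow_natCast, ← Real.rpow_mul (by linarith)]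
    norm_num
  rw [h4]
  calc ((d j : ℝ) ^ 3) ^ (1 / 3 : ℝ) ≤ ((m : ℝ) ^ 2) ^ (1 / 3 : ℝ) :=
        Real.rpow_le_rpow (by positivity) h3 (by norm_num)
    _ = (m : ℝ) ^ (2 / 3 : ℝ) := by
        rw [← Real.rpow_natCast, ← Real.rpow_mul hm0]
        norm_num

lemma badS_sub_box (m : ℕ) (R : ℝ) : BadS k m R ⊆
    (Fintype.piFinset (fun _ : Fin k => Finset.Icc (-⌊R⌋) ⌊R⌋) : Set (Fin k → ℤ)) := by
  intro v hv
  rw [Finset.mem_coe, Fintype.mem_piFinset]
  intro i
  have h1 := (hv.1 i.castSucc).2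
  rw [ext_castSucc] at h1
  rw [Finset.mem_Icc, ← abs_le]
  refine Int.le_floor.mpr ?_
  rw [Int.cast_abs]
  exact h1

/-- BAD: vectors for which the local condition fails at all primes dividing `m`. -/
theorem bad (hk : 2 ≤ k) (m : ℕ) (hm : Squarefree m) (R : ℝ) (hR : 1 ≤ R) :
    (BadS k m R).Finite ∧ ((BadS k m R).ncard : ℝ) ≤
      (((k : ℝ) + 1) ^ 2) ^ m.primeFactors.card * (2 * R) ^ k * (m : ℝ) ^ (-(4 / 3) : ℝ) := by
  classical
  have hfin : (BadS k m R).Finite := (Finset.finite_toSet _).subset (badS_sub_box m R)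
  refine ⟨hfin, ?_⟩
  have hR0 : (0 : ℝ) ≤ R := by linarith
  have hm1 : 1 ≤ m := Nat.one_le_iff_ne_zero.mpr hm.ne_zero
  have hmp : (0 : ℝ) < m := by exact_mod_cast (lt_of_lt_of_le one_pos hm1)
  rw [Set.ncard_eq_toFinset_card _ hfin]
  let J := m.primeFactors → Fin (k + 1) × Fin (k + 1)
  let F : J → Finset (Fin k → ℤ) := fun s => hfin.toFinset.filter
    (fun v => ∀ i, (dv m.primeFactors s i : ℤ) ∣ ext v i)
  have hcov : hfin.toFinset ⊆ Finset.univ.biUnion F := by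
    intro v hv
    have hv' : v ∈ BadS k m R := by rwa [Set.Finite.mem_toFinset] at hv
    have h1 : ∀ p : m.primeFactors, ∃ s : Fin (k + 1) × Fin (k + 1),
        ∀ i, ((p : ℕ) : ℤ) ^ ee s i ∣ ext v i := fun p =>
      exists_pair (ext v) (hv'.2 p (Nat.prime_of_mem_primeFactors p.2)
        (Nat.dvd_of_mem_primeFactors p.2))
    choose s hs using h1
    rw [Finset.mem_biUnion]
    refine ⟨s, Finset.mem_univ _, ?_⟩
    rw [Finset.mem_filter]
    exact ⟨hv, fun i => dv_dvd (ext v) s hs i⟩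
  have hF : ∀ s : J, ((F s).card : ℝ) ≤ (2 * R) ^ k * (m : ℝ) ^ (-(4 / 3) : ℝ) := by
    intro s
    have hpr := prod_dv m hm s
    obtain ⟨j, hj⟩ := min_div hk m hm1 (dv m.primeFactors s) (dv_pos s) hpr
    have h1 := cnt_div (dv m.primeFactors s) (dv_pos s) j R hR0 (F s) (fun v hv i => by
      obtain ⟨hv1, hv2⟩ := Finset.mem_filter.mp hv
      rw [Set.Finite.mem_toFinset] at hv1
      exact ⟨(hv1.1 i).1, (hv1.1 i).2, hv2 i⟩)
    have hpr' : ∏ i, (dv m.primeFactors s i : ℝ) = (m : ℝ) ^ 2 := by exact_mod_cast hpr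
    rw [hpr'] at h1
    refine h1.trans ?_
    have h2 : (m : ℝ) ^ (-(4 / 3) : ℝ) = (m : ℝ) ^ (2 / 3 : ℝ) / (m : ℝ) ^ 2 := by
      rw [← Real.rpow_natCast, ← Real.rpow_sub hmp]
      norm_num
    rw [h2, mul_div_assoc]
    refine mul_le_mul_of_nonneg_left ?_ (by positivity)
    exact div_le_div_of_nonneg_right hj (by positivity)
  have hJ : (Fintype.card J : ℝ) = (((k : ℝ) + 1) ^ 2) ^ m.primeFactors.card := by
    simp [J, sq]
  calc (hfin.toFinset.card : ℝ) ≤ ((Finset.univ.biUnion F).card : ℝ) := by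
        exact_mod_cast Finset.card_le_card hcov
    _ ≤ ∑ s : J, ((F s).card : ℝ) := by exact_mod_cast Finset.card_biUnion_le
    _ ≤ ∑ _s : J, (2 * R) ^ k * (m : ℝ) ^ (-(4 / 3) : ℝ) := Finset.sum_le_sum (fun s _ => hF s)
    _ = (Fintype.card J : ℝ) * ((2 * R) ^ k * (m : ℝ) ^ (-(4 / 3) : ℝ)) := by
        rw [Finset.sum_const, Finset.card_univ, nsmul_eq_mul]
    _ = _ := by rw [hJ]; ring

end Pool.Agent.H40.EQQ
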