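import Pool.Agent.H72.EQQ.Targets
import Pool.Agent.H40.EQQ.BAD

/-!
Row BDC.
-/

set_option autoImplicit false

namespace Pool.Agent.H40.EQQ

theorem pf_BDC : Pool.Agent.H72.EQQ.T_BDC := by
  intro k m R hk hm hR
  obtain ⟨h1, h2⟩ := bad hk m hm R hR
  refine ⟨h1, ?_⟩
  rw [pow_mul]
  exact h2

end Pool.Agent.H40.EQQ
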