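import Pool.Agent.H72.EQQ.Targets
import Pool.Agent.H40.EQ.FXG

/-!
Row FXQ: Riemann sums over the tuples with excess `E`, with a power saving.
-/

set_option autoImplicit false

open MeasureTheory Filter Topology
open Pool.Agent.H38.AE.Statement Pool.Agent.H38.AT

namespace Pool.Agent.H40.EQQ

open Pool.Agent.H71.EQ Pool.Agent.H72.EQQ
open Pool.Agent.H40.EQ (extR_div ext_castSucc extR_castSucc extR_last sum_ext)

variable {k : ℕ}

lemma cont_extR (i : Fin (k + 1)) : Continuous (fun z : Fin k → ℝ => extR z i) := by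
  refine Fin.lastCases ?_ (fun j => ?_) i
  · simp only [extR_last]
    exact (continuous_finset_sum _ (fun i _ => continuous_apply i)).neg
  · simp only [extR_castSucc]
    exact continuous_apply j

lemma cont_PR : Continuous (fun z : Fin k → ℝ => PR z) := by
  unfold PR
  exact (continuous_finset_prod _ (fun i _ => cont_extR i)).abs

lemma meas_arg (E : ℕ) : Measurable (arg E : (Fin k → ℝ) → Fin (k + 1) → ℝ) := by
  rw [measurable_pi_iff]
  intro i
  unfold arg
  exact ((cont_PR.measurable.pow_const _).const_mul _).mul (cont_extR i).measurable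

/-- The function which is summed. -/
noncomputable def gg (k E : ℕ) (κ lam : ℝ) (f : (Fin (k + 1) → ℝ) → ℝ) : (Fin k → ℝ) → ℝ :=
  (Reg k E κ lam).indicator (fun z => f (arg E z))

lemma reg_entries (E : ℕ) (κ lam R : ℝ) (hE : 1 ≤ E) (hκ : 0 < κ) (hlam : 1 ≤ lam) (hR : 0 < R)
    (v : Fin k → ℤ) (hv : (fun i => (v i : ℝ) / R) ∈ Reg k E κ lam) (i : Fin (k + 1)) :
    ext v i ≠ 0 ∧ |(ext v i : ℝ)| ≤ lam * R := by
  obtain ⟨h1, h2, h3⟩ := hv
  constructor
  · intro h0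
    have h4 : PR (fun i => (v i : ℝ) / R) = 0 := by
      unfold PR
      rw [Finset.prod_eq_zero (Finset.mem_univ i), abs_zero]
      rw [extR_div, h0]
      simp
    rw [h4] at h1
    linarith
  · have h4 := h3 i
    rw [extR_div, abs_div, abs_of_pos hR, div_le_iff₀ hR] at h4
    have h5 : (E : ℝ) ^ (-nu k) ≤ 1 := by
      refine Real.rpow_le_one_of_one_le_of_nonpos (by exact_mod_cast hE) ?_
      unfold nu
      have : (0 : ℝ) ≤ 1 / ((k : ℝ) + 1) := by positivity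
      linarith
    have h6 : lam * (E : ℝ) ^ (-nu k) ≤ lam := by nlinarith
    nlinarith

lemma qE_pos (E : ℕ) : 0 < qE E := by
  unfold qE
  exact Finset.prod_pos (fun p hp => pow_pos (Nat.prime_of_mem_primeFactors hp).pos _)

lemma qE_le (E : ℕ) (hE : 1 ≤ E) : qE E ≤ E ^ 3 := by
  have h1 : qE E = E * (∏ p ∈ E.primeFactors, p) ^ 2 := by
    unfold qE
    have h2 : ∏ p ∈ E.primeFactors, p ^ (E.factorization p) = E :=
      Nat.factorization_prod_pow_eq_self (by omega)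
    calc ∏ p ∈ E.primeFactors, p ^ (E.factorization p + 2)
        = (∏ p ∈ E.primeFactors, p ^ (E.factorization p)) * ∏ p ∈ E.primeFactors, p ^ 2 := by
          rw [← Finset.prod_mul_distrib]
          exact Finset.prod_congr rfl (fun p _ => pow_add _ _ _)
      _ = _ := by rw [h2, Finset.prod_pow]
  have h3 : ∏ p ∈ E.primeFactors, p ≤ E := Nat.le_of_dvd hE (Nat.prod_primeFactors_dvd E)
  rw [h1]
  calc E * (∏ p ∈ E.primeFactors, p) ^ 2 ≤ E * E ^ 2 :=
        Nat.mul_le_mul_left _ (Nat.pow_le_pow_left h3 2)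
    _ = E ^ 3 := by ring

/-- The finite set of integer vectors which contains the support. -/
lemma exists_supp (h5 : T_BDC) (hk : 2 ≤ k) (E : ℕ) (κ lam R : ℝ) (hE : 1 ≤ E) (hκ : 0 < κ)
    (hlam : 1 ≤ lam) (hR : 1 ≤ R) (f : (Fin (k + 1) → ℝ) → ℝ) :
    ∃ S : Finset (Fin k → ℤ), (∀ v ∈ S, ∀ i, ext v i ≠ 0 ∧ |(ext v i : ℝ)| ≤ lam * R) ∧
      (∀ v, v ∉ S → gg k E κ lam f (fun i => (v i : ℝ) / R) = 0) ∧
      (S.card : ℝ) ≤ (2 * (lam * R)) ^ k := by
  have hlR : 1 ≤ lam * R := by nlinarith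
  obtain ⟨hfin, hcard⟩ := h5 k 1 (lam * R) hk squarefree_one hlR
  refine ⟨hfin.toFinset, fun v hv => ?_, fun v hv => ?_, ?_⟩
  · rw [Set.Finite.mem_toFinset] at hv
    exact hv.1
  · unfold gg
    rw [Set.indicator_of_notMem]
    intro hmem
    apply hv
    rw [Set.Finite.mem_toFinset]
    refine ⟨reg_entries E κ lam R hE hκ hlam (by linarith) v hmem, fun p hp hp1 => ?_⟩
    exact absurd (Nat.dvd_one.mp hp1) hp.one_lt.ne'
  · rw [← Set.ncard_eq_toFinset_card _ hfin]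
    simpa using hcard

open Classical in
/-- The sum over the vectors which are bad at `m`. -/
noncomputable def TT (E m : ℕ) (S : Finset (Fin k → ℤ)) (G : (Fin k → ℤ) → ℝ) : ℝ :=
  ∑ v ∈ S, if v ∈ Bad k E m then G v else 0

open Classical in
/-- The sum over the bad vectors as a sum over classes. -/
lemma TT_classes (h6 : T_CRB) (hk : 1 ≤ k) (E m : ℕ) (hE : 1 ≤ E) (hm : Squarefree m)
    (hmE : m.Coprime E) (S : Finset (Fin k → ℤ)) (G : (Fin k → ℤ) → ℝ) :
    ∃ A : Finset (Fin k → ℤ), (A.card : ℝ) = bd k E m * ((qE E * m ^ 2 : ℕ) : ℝ) ^ k ∧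
      (A.card : ℝ) ≤ ((qE E * m ^ 2 : ℕ) : ℝ) ^ k ∧
      TT E m S G = ∑ a ∈ A, ∑ v ∈ S,
        (if (∀ i, ((qE E * m ^ 2 : ℕ) : ℤ) ∣ v i - a i) then G v else 0) := by
  obtain ⟨hper, hcard⟩ := h6 k E m hk hE hm hmE
  set q : ℕ := qE E * m ^ 2 with hq
  have hq0 : 0 < q := Nat.mul_pos (qE_pos E) (pow_pos (Nat.pos_of_ne_zero hm.ne_zero) 2)
  have hne : NeZero q := ⟨hq0.ne'⟩
  let lift : (Fin k → ZMod q) → (Fin k → ℤ) := fun α i => ((α i).val : ℤ)
  have hinj : Function.Injective lift := by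
    intro α β h
    funext i
    have h1 : ((α i).val : ℤ) = ((β i).val : ℤ) := congrFun h i
    exact ZMod.val_injective q (by exact_mod_cast h1)
  let A0 : Finset (Fin k → ZMod q) := Finset.univ.filter (fun α => lift α ∈ Bad k E m)
  have hA0 : (A0.card : ℝ) = bd k E m * (q : ℝ) ^ k := by
    rw [← hcard]
    congr 1
    rw [Set.ncard_eq_toFinset_card']
    congr 1
    ext α
    simp [A0, lift]
  have hmod : ∀ v : Fin k → ℤ, v ∈ Bad k E m ↔ lift (fun i => ((v i : ℤ) : ZMod q)) ∈ Bad k E m := by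
    intro v
    have h2 := hper (lift (fun i => ((v i : ℤ) : ZMod q))) (fun i => v i / (q : ℤ))
    rw [← h2]
    have h3 : v = fun i => lift (fun i => ((v i : ℤ) : ZMod q)) i + (q : ℤ) * (v i / (q : ℤ)) := by
      funext i
      show v i = ((((v i : ℤ) : ZMod q)).val : ℤ) + (q : ℤ) * (v i / (q : ℤ))
      rw [ZMod.val_intCast]
      exact (Int.emod_add_mul_ediv _ _).symm
    rw [← h3]
  refine ⟨A0.image lift, ?_, ?_, ?_⟩
  · rw [Finset.card_image_of_injective _ hinj]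
    exact hA0
  · rw [Finset.card_image_of_injective _ hinj]
    have h4 : A0.card ≤ Fintype.card (Fin k → ZMod q) := Finset.card_le_univ _
    rw [Fintype.card_fun, ZMod.card, Fintype.card_fin] at h4
    exact_mod_cast h4
  · rw [Finset.sum_comm]
    unfold TT
    refine Finset.sum_congr rfl (fun v _ => ?_)
    rw [Finset.sum_image (fun α _ β _ h => hinj h)]
    have h5 : ∀ α : Fin k → ZMod q, (∀ i, (q : ℤ) ∣ v i - lift α i) ↔
        (fun i => ((v i : ℤ) : ZMod q)) = α := by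
      intro α
      constructor
      · intro h
        funext i
        have h6 := (ZMod.intCast_eq_intCast_iff_dvd_sub (lift α i) (v i) q).mpr (h i)
        rw [← h6]
        show (((α i).val : ℤ) : ZMod q) = α i
        simp
      · intro h i
        rw [← ZMod.intCast_eq_intCast_iff_dvd_sub]
        show ((((α i).val : ℕ) : ℤ) : ZMod q) = ((v i : ℤ) : ZMod q)
        rw [← h]
        simp
    simp only [h5]
    rw [Finset.sum_ite_eq A0 (fun i => ((v i : ℤ) : ZMod q)) (fun _ => G v)]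
    have h7 : ((fun i => ((v i : ℤ) : ZMod q)) ∈ A0) ↔ v ∈ Bad k E m := by
      rw [hmod v]
      simp [A0]
    by_cases hv : v ∈ Bad k E m
    · rw [if_pos hv, if_pos (h7.mpr hv)]
    · rw [if_neg hv, if_neg (fun h => hv (h7.mp h))]

lemma meas_gg (E : ℕ) (κ lam L : ℝ) (f : (Fin (k + 1) → ℝ) → ℝ) (hL0 : 0 ≤ L)
    (hL : ∀ y z, |f y - f z| ≤ L * ‖y - z‖) (hmeas : MeasurableSet (Reg k E κ lam)) :
    Measurable (gg k E κ lam f) := by
  have hf : Continuous f := by
    have h1 : LipschitzWith ⟨L, hL0⟩ f := by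
      refine LipschitzWith.of_dist_le_mul (fun y z => ?_)
      rw [Real.dist_eq, dist_eq_norm]
      exact hL y z
    exact h1.continuous
  exact (hf.measurable.comp (meas_arg E)).indicator hmeas

lemma gg_le (E : ℕ) (κ lam B : ℝ) (f : (Fin (k + 1) → ℝ) → ℝ) (hB : ∀ y, |f y| ≤ B)
    (z : Fin k → ℝ) : |gg k E κ lam f z| ≤ B := by
  have hB0 : 0 ≤ B := (abs_nonneg _).trans (hB 0)
  unfold gg
  by_cases hz : z ∈ Reg k E κ lam
  · rw [Set.indicator_of_mem hz]; exact hB _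
  · rw [Set.indicator_of_notMem hz, abs_zero]; exact hB0

open Classical in
/-- The main term at `m`. -/
lemma main_m (h1 : T_QRS) (h6 : T_CRB) (hk : 2 ≤ k) (E m : ℕ) (hE : 1 ≤ E) (hm : Squarefree m)
    (hmE : m.Coprime E) (κ lam R B L Λ : ℝ) (f : (Fin (k + 1) → ℝ) → ℝ) (hR : 1 ≤ R)
    (hB : ∀ y, |f y| ≤ B) (hL0 : 0 ≤ L) (hL : ∀ y z, |f y - f z| ≤ L * ‖y - z‖)
    (S : Finset (Fin k → ℤ))
    (hS : ∀ v, v ∉ S → gg k E κ lam f (fun i => (v i : ℝ) / R) = 0)
    (hmeas : MeasurableSet (Reg k E κ lam)) (hbdd : Bornology.IsBounded (Reg k E κ lam))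
    (W : Set (Fin k → ℝ)) (hWm : MeasurableSet W) (hWt : volume W ≠ ⊤)
    (hW : ∀ y z, (∀ i, |y i - z i| ≤ ((qE E * m ^ 2 : ℕ) : ℝ) / R) → y ∈ Reg k E κ lam →
      z ∉ Reg k E κ lam → y ∈ W ∧ z ∈ W)
    (hΛ0 : 0 ≤ Λ)
    (hΛ : ∀ y z, (∀ i, |y i - z i| ≤ ((qE E * m ^ 2 : ℕ) : ℝ) / R) → y ∈ Reg k E κ lam →
      z ∈ Reg k E κ lam → ‖arg E y - arg E z‖ ≤ Λ) :
    |TT E m S (fun v => gg k E κ lam f (fun i => (v i : ℝ) / R)) -
      bd k E m * R ^ k * ∫ z, gg k E κ lam f z| ≤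
      R ^ k * (L * Λ * (volume (Reg k E κ lam)).toReal + B * (volume W).toReal) := by
  obtain ⟨A, hA1, hA2, hA3⟩ := TT_classes h6 (by omega) E m hE hm hmE S
    (fun v => gg k E κ lam f (fun i => (v i : ℝ) / R))
  have hB0 : 0 ≤ B := (abs_nonneg _).trans (hB 0)
  have hR0 : (0 : ℝ) < R := by linarith
  have hq0 : 0 < qE E * m ^ 2 :=
    Nat.mul_pos (qE_pos E) (pow_pos (Nat.pos_of_ne_zero hm.ne_zero) 2)
  generalize qE E * m ^ 2 = q at *
  have hqr : (0 : ℝ) < q := by exact_mod_cast hq0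
  set I : ℝ := ∫ z, gg k E κ lam f z with hI
  set Err : ℝ := L * Λ * (volume (Reg k E κ lam)).toReal + B * (volume W).toReal with hErr
  have hErr0 : 0 ≤ Err := by rw [hErr]; positivity
  have hcl : ∀ a ∈ A, |(∑ v ∈ S, (if (∀ i, (q : ℤ) ∣ v i - a i) then
      gg k E κ lam f (fun i => (v i : ℝ) / R) else 0)) - (R / q) ^ k * I| ≤
      (R / q) ^ k * Err := by
    intro a _
    have h2 := h1 k q a R B (L * Λ) (Reg k E κ lam) W (gg k E κ lam f) hq0 hR0 hbdd hmeas hWm hWt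
      (meas_gg E κ lam L f hL0 hL hmeas)
      (fun z hz => Set.indicator_of_notMem hz _) (gg_le E κ lam B f hB)
      (mul_nonneg hL0 hΛ0)
      (fun y z hyz hy hz => by
        unfold gg
        rw [Set.indicator_of_mem hy, Set.indicator_of_mem hz]
        exact (hL _ _).trans (mul_le_mul_of_nonneg_left (hΛ y z hyz hy hz) hL0))
      hW
    rw [tsum_eq_sum (s := S)] at h2
    · have h3 : ∀ v ∈ S, (if (∀ i, (q : ℤ) ∣ v i - a i) then
          gg k E κ lam f (fun i => (v i : ℝ) / R) else 0) =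
          @ite ℝ (∀ i, (q : ℤ) ∣ v i - a i) (Classical.propDecidable _)
            (gg k E κ lam f (fun i => (v i : ℝ) / R)) 0 := by
        intro v _
        by_cases hv : ∀ i, (q : ℤ) ∣ v i - a i
        · rw [if_pos hv, if_pos hv]
        · rw [if_neg hv, if_neg hv]
      rw [Finset.sum_congr rfl h3]
      have h4 : ∀ v ∈ S, (if (∀ i, (q : ℤ) ∣ v i - a i) then
          gg k E κ lam f (fun i => (v i : ℝ) / R) else 0) =
          @ite ℝ (∀ i, (q : ℤ) ∣ v i - a i) (Classical.propDecidable _)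
            (gg k E κ lam f (fun i => (v i : ℝ) / R)) 0 := by
        intro v _
        by_cases hv : ∀ i, (q : ℤ) ∣ v i - a i
        · rw [if_pos hv, if_pos hv]
        · rw [if_neg hv, if_neg hv]
      rw [Finset.sum_congr rfl h4] at h2
      exact h2
    · intro v hv
      rw [hS v hv, ite_self]
  have hqk : (R / q) ^ k * (q : ℝ) ^ k = R ^ k := by
    rw [← mul_pow, div_mul_cancel₀ _ hqr.ne']
  rw [hA3]
  have h5 : (∑ a ∈ A, ∑ v ∈ S, (if (∀ i, (q : ℤ) ∣ v i - a i) then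
      gg k E κ lam f (fun i => (v i : ℝ) / R) else 0)) - bd k E m * R ^ k * I =
      ∑ a ∈ A, ((∑ v ∈ S, (if (∀ i, (q : ℤ) ∣ v i - a i) then
      gg k E κ lam f (fun i => (v i : ℝ) / R) else 0)) - (R / q) ^ k * I) := by
    rw [Finset.sum_sub_distrib, Finset.sum_const, nsmul_eq_mul, hA1, ← hqk]
    ring
  rw [h5]
  calc |∑ a ∈ A, ((∑ v ∈ S, (if (∀ i, (q : ℤ) ∣ v i - a i) then
      gg k E κ lam f (fun i => (v i : ℝ) / R) else 0)) - (R / q) ^ k * I)|
      ≤ ∑ a ∈ A, (R / q) ^ k * Err := (Finset.abs_sum_le_sum_abs _ _).trans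
        (Finset.sum_le_sum hcl)
    _ = (A.card : ℝ) * ((R / q) ^ k * Err) := by rw [Finset.sum_const, nsmul_eq_mul]
    _ ≤ (q : ℝ) ^ k * ((R / q) ^ k * Err) :=
        mul_le_mul_of_nonneg_right hA2 (mul_nonneg (by positivity) hErr0)
    _ = R ^ k * Err := by rw [← hqk]; ring

/-- The large values of `m`. -/
lemma tail_m (h5 : T_BDC) (hk : 2 ≤ k) (E : ℕ) (lam R B : ℝ) (hlR : 1 ≤ lam * R) (hB0 : 0 ≤ B)
    (S : Finset (Fin k → ℤ)) (hS : ∀ v ∈ S, ∀ i, ext v i ≠ 0 ∧ |(ext v i : ℝ)| ≤ lam * R)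
    (G : (Fin k → ℤ) → ℝ) (hG : ∀ v, |G v| ≤ B) (F : Finset ℕ)
    (hF : ∀ m ∈ F, Squarefree m) :
    |∑ m ∈ F, (ArithmeticFunction.moebius m : ℝ) * TT E m S G| ≤
      B * (2 * (lam * R)) ^ k *
        ∑ m ∈ F, (((k : ℝ) + 1) ^ 2) ^ m.primeFactors.card * (m : ℝ) ^ (-(4 / 3) : ℝ) := by
  classical
  refine (Finset.abs_sum_le_sum_abs _ _).trans ?_
  rw [Finset.mul_sum]
  refine Finset.sum_le_sum (fun m hm => ?_)
  obtain ⟨hfin, hcard⟩ := h5 k m (lam * R) hk (hF m hm) hlR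
  have h1 : |(ArithmeticFunction.moebius m : ℝ)| ≤ 1 := by
    have := ArithmeticFunction.abs_moebius_le_one (n := m)
    exact_mod_cast this
  have h2 : |TT E m S G| ≤ B * ((S.filter (fun v => v ∈ Bad k E m)).card : ℝ) := by
    unfold TT
    rw [← Finset.sum_filter]
    refine (Finset.abs_sum_le_sum_abs _ _).trans ?_
    refine (Finset.sum_le_sum (fun v _ => hG v)).trans ?_
    rw [Finset.sum_const, nsmul_eq_mul, mul_comm]
  have h3 : ((S.filter (fun v => v ∈ Bad k E m)).card : ℝ) ≤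
      ((k : ℝ) + 1) ^ (2 * m.primeFactors.card) * (2 * (lam * R)) ^ k *
        (m : ℝ) ^ (-(4 / 3) : ℝ) := by
    refine le_trans ?_ hcard
    rw [Set.ncard_eq_toFinset_card _ hfin]
    have h4 : S.filter (fun v => v ∈ Bad k E m) ⊆ hfin.toFinset := by
      intro v hv
      obtain ⟨hv1, hv2⟩ := Finset.mem_filter.mp hv
      rw [Set.Finite.mem_toFinset]
      exact ⟨hS v hv1, hv2.2⟩
    exact_mod_cast Finset.card_le_card h4
  rw [abs_mul]
  calc |(ArithmeticFunction.moebius m : ℝ)| * |TT E m S G| ≤ 1 * |TT E m S G| :=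
        mul_le_mul_of_nonneg_right h1 (abs_nonneg _)
    _ = |TT E m S G| := one_mul _
    _ ≤ B * (((k : ℝ) + 1) ^ (2 * m.primeFactors.card) * (2 * (lam * R)) ^ k *
        (m : ℝ) ^ (-(4 / 3) : ℝ)) := h2.trans (mul_le_mul_of_nonneg_left h3 hB0)
    _ = _ := by rw [pow_mul]; ring

/-- The sum over the tuples with excess `E` as a Moebius sum. -/
lemma fix_sum (h4 : T_MOB) (E D : ℕ) (hE : 1 ≤ E) (κ lam R : ℝ)
    (f : (Fin (k + 1) → ℝ) → ℝ) (S : Finset (Fin k → ℤ))
    (hS0 : ∀ v ∈ S, ∀ i, ext v i ≠ 0)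
    (hS : ∀ v, v ∉ S → gg k E κ lam f (fun i => (v i : ℝ) / R) = 0) :
    ∃ N : ℕ, D ≤ N ∧ (∑' v : Fin k → ℤ, (Fix k E).indicator
      (fun v => gg k E κ lam f (fun i => (v i : ℝ) / R)) v) =
      ∑ m ∈ Md E N, (ArithmeticFunction.moebius m : ℝ) *
        TT E m S (fun v => gg k E κ lam f (fun i => (v i : ℝ) / R)) := by
  classical
  have h1 : ∀ᶠ N : ℕ in atTop, ∀ v ∈ S, ∑ m ∈ Md E N, (ArithmeticFunction.moebius m : ℝ) *
      (Bad k E m).indicator (fun _ => (1 : ℝ)) v = (Fix k E).indicator (fun _ => (1 : ℝ)) v := by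
    rw [Filter.eventually_all_finset]
    intro v hv
    obtain ⟨N₀, hN₀⟩ := h4 k E v hE (hS0 v hv)
    exact eventually_atTop.mpr ⟨N₀, hN₀⟩
  obtain ⟨N, hN, hD⟩ := (h1.and (eventually_ge_atTop D)).exists
  refine ⟨N, hD, ?_⟩
  rw [tsum_eq_sum (s := S)]
  · unfold TT
    simp only [Finset.mul_sum]
    rw [Finset.sum_comm]
    refine Finset.sum_congr rfl (fun v hv => ?_)
    have h2 : (Fix k E).indicator (fun v => gg k E κ lam f (fun i => (v i : ℝ) / R)) v =
        (Fix k E).indicator (fun _ => (1 : ℝ)) v * gg k E κ lam f (fun i => (v i : ℝ) / R) := by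
      by_cases h : v ∈ Fix k E
      · rw [Set.indicator_of_mem h, Set.indicator_of_mem h, one_mul]
      · rw [Set.indicator_of_notMem h, Set.indicator_of_notMem h, zero_mul]
    rw [h2, ← hN v hv, Finset.sum_mul]
    refine Finset.sum_congr rfl (fun m _ => ?_)
    by_cases h : v ∈ Bad k E m
    · rw [Set.indicator_of_mem h, if_pos h]; ring
    · rw [Set.indicator_of_notMem h, if_neg h]; ring
  · intro v hv
    by_cases h : v ∈ Fix k E
    · rw [Set.indicator_of_mem h]; exact hS v hv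
    · rw [Set.indicator_of_notMem h]

/-- the quantities which depend on `R` only -/
lemma numeric (R : ℝ) (hR : 1 ≤ R) : ∃ (D : ℕ) (Z y w : ℝ), 1 ≤ D ∧ 0 < Z ∧ Z ≤ 1 ∧ 0 < y ∧
    1 ≤ w ∧ (D : ℝ) ^ 2 ≤ w ∧ w ^ 4 = R ∧ (D : ℝ) ^ (-(1 / 4) : ℝ) ≤ 2 * Z ∧ 1 ≤ w * Z ∧
    y ^ 2 * w ^ 3 = 1 ∧ (D : ℝ) * y ≤ Z ∧ Z = R ^ (-(1 / 32) : ℝ) := by
  have hR0 : (0 : ℝ) < R := by linarith
  have hr1 : 1 ≤ R ^ (1 / 8 : ℝ) := Real.one_le_rpow hR (by norm_num)
  set r : ℝ := R ^ (1 / 8 : ℝ) with hr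
  have hr0 : 0 < r := by linarith
  have hD1 : 1 ≤ ⌊r⌋₊ := Nat.le_floor (by simpa using hr1)
  have hDr : ((⌊r⌋₊ : ℕ) : ℝ) ≤ r := Nat.floor_le hr0.le
  have hD2 : r < (⌊r⌋₊ : ℕ) + 1 := Nat.lt_floor_add_one r
  have hD1' : (1 : ℝ) ≤ ((⌊r⌋₊ : ℕ) : ℝ) := by exact_mod_cast hD1
  refine ⟨⌊r⌋₊, R ^ (-(1 / 32) : ℝ), R ^ (-(3 / 8) : ℝ), R ^ (1 / 4 : ℝ), hD1,
    Real.rpow_pos_of_pos hR0 _, Real.rpow_le_one_of_one_le_of_nonpos hR (by norm_num),
    Real.rpow_pos_of_pos hR0 _, Real.one_le_rpow hR (by norm_num), ?_, ?_, ?_, ?_, ?_, ?_, rfl⟩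
  · calc ((⌊r⌋₊ : ℕ) : ℝ) ^ 2 ≤ r ^ 2 := pow_le_pow_left₀ (by linarith) hDr 2
      _ = R ^ (1 / 4 : ℝ) := by
        rw [hr, ← Real.rpow_natCast, ← Real.rpow_mul hR0.le]
        norm_num
  · rw [← Real.rpow_natCast, ← Real.rpow_mul hR0.le]
    norm_num
  · have h1 : r / 2 ≤ ((⌊r⌋₊ : ℕ) : ℝ) := by linarith
    have h2 : ((⌊r⌋₊ : ℕ) : ℝ) ^ (-(1 / 4) : ℝ) ≤ (r / 2) ^ (-(1 / 4) : ℝ) :=
      Real.rpow_le_rpow_of_nonpos (by positivity) h1 (by norm_num)
    refine h2.trans ?_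
    rw [Real.div_rpow hr0.le (by norm_num)]
    have h3 : r ^ (-(1 / 4) : ℝ) = R ^ (-(1 / 32) : ℝ) := by
      rw [hr, ← Real.rpow_mul hR0.le]
      norm_num
    rw [h3]
    have h4 : (1 / 2 : ℝ) ≤ (2 : ℝ) ^ (-(1 / 4) : ℝ) := by
      calc (1 / 2 : ℝ) = (2 : ℝ) ^ (-1 : ℝ) := by rw [Real.rpow_neg_one]; norm_num
        _ ≤ (2 : ℝ) ^ (-(1 / 4) : ℝ) :=
          Real.rpow_le_rpow_of_exponent_le (by norm_num) (by norm_num)
    rw [div_le_iff₀ (by positivity)]
    have h5 : 0 < R ^ (-(1 / 32) : ℝ) := Real.rpow_pos_of_pos hR0 _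
    nlinarith
  · rw [← Real.rpow_add hR0]
    exact Real.one_le_rpow hR (by norm_num)
  · rw [← Real.rpow_natCast, ← Real.rpow_natCast, ← Real.rpow_mul hR0.le,
      ← Real.rpow_mul hR0.le, ← Real.rpow_add hR0]
    norm_num
  · calc ((⌊r⌋₊ : ℕ) : ℝ) * R ^ (-(3 / 8) : ℝ) ≤ r * R ^ (-(3 / 8) : ℝ) :=
        mul_le_mul_of_nonneg_right hDr (Real.rpow_nonneg hR0.le _)
      _ = R ^ (-(1 / 4) : ℝ) := by
        rw [hr, ← Real.rpow_add hR0]
        norm_num
      _ ≤ _ := Real.rpow_le_rpow_of_exponent_le hR (by norm_num)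

theorem pf_FXQ (h1 : T_QRS) (h2 : T_WLY) (h3 : T_LPA) (h4 : T_MOB) (h5 : T_BDC) (h6 : T_CRB)
    (h7 : T_SMA) (h8 : T_PRQ) (h9 : T_PRD) : T_FXQ := by
  intro k hk
  obtain ⟨CW, hCW, hWLY⟩ := h2 k hk
  obtain ⟨CL, hCL, hLPA⟩ := h3 k hk
  obtain ⟨CS, hCS, hSMA⟩ := h7 (((k : ℝ) + 1) ^ 2) (by positivity)
  obtain ⟨CP, hCP, hPRQ⟩ := h8 k hk
  refine ⟨(2 ^ k + CW) + (2 * 2 ^ k * CS + CW * (CL + 1) + 2 * CW * CP), 1 / 32, k + 6,
    by positivity, by norm_num, ?_⟩
  intro E κ lam R B L f hE hκ hκ1 hlam hR hB hL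
  have hB0 : 0 ≤ B := (abs_nonneg _).trans (hB 0)
  have hL0 : 0 ≤ L := by
    have h := hL 0 1
    have hn : ‖(0 : Fin (k + 1) → ℝ) - 1‖ = 1 := by rw [zero_sub, norm_neg, norm_one]
    rw [hn, mul_one] at h
    exact (abs_nonneg _).trans h
  have hEr : (1 : ℝ) ≤ E := by exact_mod_cast hE
  have hR0 : (0 : ℝ) < R := by linarith
  have hκi : 1 ≤ κ⁻¹ := (one_le_inv₀ hκ).mpr hκ1.le
  have hlR : 1 ≤ lam * R := by nlinarith
  set U : ℝ := (E : ℝ) * κ⁻¹ * lam with hU
  have hEκ : 1 ≤ (E : ℝ) * κ⁻¹ := by nlinarith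
  have hEU : (E : ℝ) ≤ U := by
    rw [hU, mul_assoc]
    have : 1 ≤ κ⁻¹ * lam := by nlinarith
    nlinarith
  have hκU : κ⁻¹ ≤ U := by
    have : κ⁻¹ ≤ (E : ℝ) * κ⁻¹ := by nlinarith
    rw [hU]
    nlinarith
  have hlU : lam ≤ U := by
    rw [hU]
    nlinarith
  have hU1 : 1 ≤ U := hEr.trans hEU
  have hU0 : 0 < U := by linarith
  obtain ⟨hmeas, hbdd, hvol, _⟩ := hWLY E κ lam 1 hE hκ hκ1 hlam one_pos le_rfl
  obtain ⟨S, hS1, hS2, hS3⟩ := exists_supp h5 hk E κ lam R hE hκ hlam hR f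
  obtain ⟨_, hwz, hwt0, _, hloc⟩ := h9 k E hk hE
  have hw1 : wt (k + 1) E ≤ 1 := by
    refine le_of_tendsto hwz (Eventually.of_forall (fun z => ?_))
    unfold wz
    refine Finset.prod_le_one (fun p hp => ?_) (fun p hp => ?_)
    · exact (hloc p _ (Finset.mem_filter.mp hp).2).1
    · exact (hloc p _ (Finset.mem_filter.mp hp).2).2.1
  have hI : ∫ z in Reg k E κ lam, f (arg E z) = ∫ z, gg k E κ lam f z :=
    (integral_indicator hmeas).symm
  have hIb : |∫ z, gg k E κ lam f z| ≤ B * CW := by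
    rw [← hI]
    have h10 := norm_setIntegral_le_of_norm_le_const (μ := volume) (s := Reg k E κ lam)
      (f := fun z => f (arg E z)) (C := B) hbdd.measure_lt_top (fun z _ => hB _)
    rw [Real.norm_eq_abs] at h10
    exact h10.trans (mul_le_mul_of_nonneg_left hvol hB0)
  change |(∑' v : Fin k → ℤ, (Fix k E).indicator
      (fun v => gg k E κ lam f (fun i => (v i : ℝ) / R)) v) -
    R ^ k * (wt (k + 1) E * ∫ z in Reg k E κ lam, f (arg E z))| ≤ _
  rw [hI]
  set I : ℝ := ∫ z, gg k E κ lam f z with hIdef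
  obtain ⟨D, Z, y, w, hD1, hZ0, hZ1, hy0, hw1', hDw, hwR, hDZ, hwZ, hyw, hDy, hZR⟩ := numeric R hR
  have hRZ : R ^ ((k : ℝ) - 1 / 32) = R ^ k * Z := by
    rw [hZR, ← Real.rpow_natCast, ← Real.rpow_add hR0]
    congr 1
  rw [hRZ]
  have hRk : 0 < R ^ k := pow_pos hR0 k
  have hBL : B ≤ B + L := by linarith
  have hBL0 : 0 ≤ B + L := by linarith
  have hlk1 : 1 ≤ lam ^ k := one_le_pow₀ hlam
  have hpw : ∀ j : ℕ, j ≤ k + 6 → U ^ j ≤ U ^ (k + 6) := fun j hj => pow_le_pow_right₀ hU1 hj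
  have hlkU : lam ^ k ≤ U ^ k := pow_le_pow_left₀ (by linarith) hlU k
  set C1 : ℝ := 2 * 2 ^ k * CS + CW * (CL + 1) + 2 * CW * CP with hC1
  have hC10 : 0 ≤ C1 := by positivity
  by_cases hcase : (qE E : ℝ) * (D : ℝ) ^ 2 ≤ R
  · -- the main case
    obtain ⟨N, hDN, hN⟩ := fix_sum h4 E D hE κ lam R f S (fun v hv i => (hS1 v hv i).1) hS2
    rw [hN]
    set G : (Fin k → ℤ) → ℝ := fun v => gg k E κ lam f (fun i => (v i : ℝ) / R) with hG
    have hGb : ∀ v, |G v| ≤ B := fun v => gg_le E κ lam B f hB _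
    -- splitting
    have hsplit : ∑ m ∈ Md E N, (ArithmeticFunction.moebius m : ℝ) * TT E m S G =
        ∑ m ∈ Md E D, (ArithmeticFunction.moebius m : ℝ) * TT E m S G +
        ∑ m ∈ (Md E N).filter (fun m => ¬ m ≤ D),
          (ArithmeticFunction.moebius m : ℝ) * TT E m S G := by
      rw [← Finset.sum_filter_add_sum_filter_not (Md E N) (fun m => m ≤ D)]
      congr 1
      refine Finset.sum_congr ?_ (fun _ _ => rfl)
      ext m
      simp only [Md, Finset.mem_filter, Finset.mem_Icc]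
      constructor
      · rintro ⟨⟨⟨a1, a2⟩, a3⟩, a4⟩
        exact ⟨⟨a1, a4⟩, a3⟩
      · rintro ⟨⟨a1, a2⟩, a3⟩
        exact ⟨⟨⟨a1, a2.trans hDN⟩, a3⟩, a2⟩
    -- the tail
    have htail : |∑ m ∈ (Md E N).filter (fun m => ¬ m ≤ D),
        (ArithmeticFunction.moebius m : ℝ) * TT E m S G| ≤
        2 * 2 ^ k * CS * ((B + L) * U ^ (k + 6) * (R ^ k * Z)) := by
      have hF : ∀ m ∈ (Md E N).filter (fun m => ¬ m ≤ D), Squarefree m ∧ (D : ℝ) < (m : ℝ) := by
        intro m hm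
        obtain ⟨hm1, hm2⟩ := Finset.mem_filter.mp hm
        refine ⟨(Finset.mem_filter.mp hm1).2.1, ?_⟩
        exact_mod_cast not_le.mp hm2
      have e1 := tail_m h5 hk E lam R B hlR hB0 S hS1 G hGb _ (fun m hm => (hF m hm).1)
      have e2 := hSMA (D : ℝ) _ (by exact_mod_cast hD1) hF
      have e3 : 0 ≤ B * (2 * (lam * R)) ^ k := by positivity
      refine e1.trans ((mul_le_mul_of_nonneg_left (e2.trans
        (mul_le_mul_of_nonneg_left hDZ hCS.le)) e3).trans ?_)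
      have e4 : B * (2 * (lam * R)) ^ k * (CS * (2 * Z)) =
          2 * 2 ^ k * CS * (B * lam ^ k * (R ^ k * Z)) := by
        rw [mul_pow, mul_pow]; ring
      rw [e4]
      refine mul_le_mul_of_nonneg_left ?_ (by positivity)
      refine mul_le_mul_of_nonneg_right ?_ (by positivity)
      exact mul_le_mul hBL (hlkU.trans (hpw k (by omega))) (by positivity) hBL0
    -- each m in the main part
    have hmain : ∀ m ∈ Md E D, |TT E m S G - bd k E m * R ^ k * I| ≤
        CW * (CL + 1) * ((B + L) * U ^ (k + 6) * R ^ k) * y := by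
      intro m hm
      obtain ⟨hmI, hmsq, hmE⟩ := Finset.mem_filter.mp hm
      obtain ⟨hm1, hmD⟩ := Finset.mem_Icc.mp hmI
      have hmr : (m : ℝ) ≤ D := by exact_mod_cast hmD
      have hqpos : (0 : ℝ) < ((qE E * m ^ 2 : ℕ) : ℝ) := by
        have : 0 < qE E * m ^ 2 := Nat.mul_pos (qE_pos E) (pow_pos hm1 2)
        exact_mod_cast this
      set s : ℝ := ((qE E * m ^ 2 : ℕ) : ℝ) / R with hs
      have hs0 : 0 < s := div_pos hqpos hR0
      have hqE3 : (qE E : ℝ) ≤ (E : ℝ) ^ 3 := by exact_mod_cast qE_le E hE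
      have hqD : ((qE E * m ^ 2 : ℕ) : ℝ) ≤ (qE E : ℝ) * (D : ℝ) ^ 2 := by
        push_cast
        exact mul_le_mul_of_nonneg_left (pow_le_pow_left₀ (Nat.cast_nonneg _) hmr 2)
          (Nat.cast_nonneg _)
      have hs1 : s ≤ 1 := by
        rw [hs, div_le_one hR0]
        exact hqD.trans hcase
      have hst : s ≤ ((E : ℝ) ^ 2 * y) ^ 2 := by
        have e1 : s ≤ (E : ℝ) ^ 3 * w / R := by
          rw [hs]
          refine div_le_div_of_nonneg_right (hqD.trans ?_) hR0.le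
          exact mul_le_mul hqE3 hDw (by positivity) (by positivity)
        have e2 : (E : ℝ) ^ 3 * w / R = (E : ℝ) ^ 3 * y ^ 2 := by
          rw [← hwR, div_eq_iff (by positivity)]
          calc (E : ℝ) ^ 3 * w = (E : ℝ) ^ 3 * w * 1 := by ring
            _ = (E : ℝ) ^ 3 * w * (y ^ 2 * w ^ 3) := by rw [hyw]
            _ = _ := by ring
        rw [e2] at e1
        refine e1.trans ?_
        have e3 : (E : ℝ) ^ 3 ≤ (E : ℝ) ^ 4 := pow_le_pow_right₀ hEr (by norm_num)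
        calc (E : ℝ) ^ 3 * y ^ 2 ≤ (E : ℝ) ^ 4 * y ^ 2 :=
              mul_le_mul_of_nonneg_right e3 (by positivity)
          _ = _ := by ring
      have hsq : s ^ (1 / 2 : ℝ) ≤ (E : ℝ) ^ 2 * y := by
        rw [← Real.sqrt_eq_rpow]
        exact Real.sqrt_le_iff.mpr ⟨by positivity, hst⟩
      have hsle : s ≤ s ^ (1 / 2 : ℝ) := by
        calc s = s ^ (1 : ℝ) := (Real.rpow_one s).symm
          _ ≤ s ^ (1 / 2 : ℝ) := Real.rpow_le_rpow_of_exponent_ge hs0 hs1 (by norm_num)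
      obtain ⟨_, _, _, W, hWm, hWt, hWv, hWW⟩ := hWLY E κ lam s hE hκ hκ1 hlam hs0 hs1
      have hΛ := hLPA E κ lam s hE hκ hκ1 hlam hs0 hs1
      have hmm := main_m h1 h6 hk E m hE hmsq hmE κ lam R B L
        (CL * E * (κ ^ 2)⁻¹ * lam ^ (k + 1) * s) f hR hB hL0 hL S hS2 hmeas hbdd W hWm hWt hWW
        (by positivity) hΛ
      refine hmm.trans ?_
      have f1 : L * (CL * E * (κ ^ 2)⁻¹ * lam ^ (k + 1) * s) *
          (volume (Reg k E κ lam)).toReal ≤ CW * CL * ((B + L) * U ^ (k + 6)) * y := by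
        have g1 : (κ ^ 2)⁻¹ ≤ U ^ 2 := by
          rw [← inv_pow]
          exact pow_le_pow_left₀ (by positivity) hκU 2
        have g2 : lam ^ (k + 1) ≤ U ^ (k + 1) := pow_le_pow_left₀ (by linarith) hlU _
        have g3 : s ≤ U ^ 2 * y := by
          refine (hsle.trans hsq).trans ?_
          exact mul_le_mul_of_nonneg_right (pow_le_pow_left₀ (by linarith) hEU 2) hy0.le
        have g4 : (E : ℝ) * (κ ^ 2)⁻¹ * lam ^ (k + 1) * s ≤ U * U ^ 2 * U ^ (k + 1) *
            (U ^ 2 * y) := by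
          refine mul_le_mul (mul_le_mul (mul_le_mul hEU g1 (by positivity) hU0.le) g2
            (by positivity) (by positivity)) g3 hs0.le (by positivity)
        have g5 : U * U ^ 2 * U ^ (k + 1) * (U ^ 2 * y) = U ^ (k + 6) * y := by ring
        rw [g5] at g4
        calc L * (CL * E * (κ ^ 2)⁻¹ * lam ^ (k + 1) * s) * (volume (Reg k E κ lam)).toReal
            = (CL * L) * ((E : ℝ) * (κ ^ 2)⁻¹ * lam ^ (k + 1) * s) *
              (volume (Reg k E κ lam)).toReal := by ring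
          _ ≤ (CL * (B + L)) * (U ^ (k + 6) * y) * CW := by
              refine mul_le_mul (mul_le_mul (mul_le_mul_of_nonneg_left (by linarith) hCL.le) g4
                (by positivity) (by positivity)) hvol ENNReal.toReal_nonneg (by positivity)
          _ = _ := by ring
      have f2 : B * (volume W).toReal ≤ CW * ((B + L) * U ^ (k + 6)) * y := by
        have g1 : (volume W).toReal ≤ CW * U ^ k * (U ^ 2 * y) := by
          refine hWv.trans ?_
          refine mul_le_mul (mul_le_mul_of_nonneg_left hlkU hCW.le) ?_ (by positivity)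
            (by positivity)
          refine hsq.trans ?_
          exact mul_le_mul_of_nonneg_right (pow_le_pow_left₀ (by linarith) hEU 2) hy0.le
        have g2 : U ^ k * (U ^ 2 * y) ≤ U ^ (k + 6) * y := by
          have : U ^ k * (U ^ 2 * y) = U ^ (k + 2) * y := by ring
          rw [this]
          exact mul_le_mul_of_nonneg_right (hpw (k + 2) (by omega)) hy0.le
        calc B * (volume W).toReal ≤ (B + L) * (CW * U ^ k * (U ^ 2 * y)) :=
              mul_le_mul hBL g1 ENNReal.toReal_nonneg hBL0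
          _ = (B + L) * CW * (U ^ k * (U ^ 2 * y)) := by ring
          _ ≤ (B + L) * CW * (U ^ (k + 6) * y) := mul_le_mul_of_nonneg_left g2 (by positivity)
          _ = _ := by ring
      calc R ^ k * (L * (CL * E * (κ ^ 2)⁻¹ * lam ^ (k + 1) * s) *
            (volume (Reg k E κ lam)).toReal + B * (volume W).toReal)
          ≤ R ^ k * (CW * CL * ((B + L) * U ^ (k + 6)) * y + CW * ((B + L) * U ^ (k + 6)) * y) :=
            mul_le_mul_of_nonneg_left (add_le_add f1 f2) hRk.le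
        _ = _ := by ring
    -- the sum over the main part
    have hmoeb : ∀ m : ℕ, |(ArithmeticFunction.moebius m : ℝ)| ≤ 1 := by
      intro m
      have := ArithmeticFunction.abs_moebius_le_one (n := m)
      exact_mod_cast this
    have hcardD : ((Md E D).card : ℝ) ≤ D := by
      have : (Md E D).card ≤ D := by
        refine (Finset.card_filter_le _ _).trans ?_
        simp
      exact_mod_cast this
    have hsum : |∑ m ∈ Md E D, (ArithmeticFunction.moebius m : ℝ) *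
        (TT E m S G - bd k E m * R ^ k * I)| ≤
        CW * (CL + 1) * ((B + L) * U ^ (k + 6) * (R ^ k * Z)) := by
      have e1 : ∀ m ∈ Md E D, |(ArithmeticFunction.moebius m : ℝ) *
          (TT E m S G - bd k E m * R ^ k * I)| ≤
          CW * (CL + 1) * ((B + L) * U ^ (k + 6) * R ^ k) * y := by
        intro m hm
        rw [abs_mul]
        calc |(ArithmeticFunction.moebius m : ℝ)| * |TT E m S G - bd k E m * R ^ k * I|
            ≤ 1 * |TT E m S G - bd k E m * R ^ k * I| :=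
              mul_le_mul_of_nonneg_right (hmoeb m) (abs_nonneg _)
          _ = |TT E m S G - bd k E m * R ^ k * I| := one_mul _
          _ ≤ _ := hmain m hm
      refine (Finset.abs_sum_le_sum_abs _ _).trans ((Finset.sum_le_sum e1).trans ?_)
      rw [Finset.sum_const, nsmul_eq_mul]
      have e2 : ((Md E D).card : ℝ) * y ≤ Z :=
        (mul_le_mul_of_nonneg_right hcardD hy0.le).trans hDy
      have e3 : 0 ≤ CW * (CL + 1) * ((B + L) * U ^ (k + 6) * R ^ k) := by positivity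
      calc ((Md E D).card : ℝ) * (CW * (CL + 1) * ((B + L) * U ^ (k + 6) * R ^ k) * y)
          = CW * (CL + 1) * ((B + L) * U ^ (k + 6) * R ^ k) * (((Md E D).card : ℝ) * y) := by ring
        _ ≤ CW * (CL + 1) * ((B + L) * U ^ (k + 6) * R ^ k) * Z :=
            mul_le_mul_of_nonneg_left e2 e3
        _ = _ := by ring
    -- the density
    have hdens : |R ^ k * I * (∑ m ∈ Md E D, (ArithmeticFunction.moebius m : ℝ) * bd k E m -
        wt (k + 1) E)| ≤ 2 * CW * CP * ((B + L) * U ^ (k + 6) * (R ^ k * Z)) := by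
      have e1 := (hPRQ E D hE hD1).trans (mul_le_mul_of_nonneg_left hDZ hCP.le)
      rw [abs_mul, abs_mul, abs_of_pos hRk]
      calc R ^ k * |I| * |∑ m ∈ Md E D, (ArithmeticFunction.moebius m : ℝ) * bd k E m -
            wt (k + 1) E| ≤ R ^ k * (B * CW) * (CP * (2 * Z)) :=
            mul_le_mul (mul_le_mul_of_nonneg_left hIb hRk.le) e1 (abs_nonneg _) (by positivity)
        _ = 2 * CW * CP * (B * 1 * (R ^ k * Z)) := by ring
        _ ≤ 2 * CW * CP * ((B + L) * U ^ (k + 6) * (R ^ k * Z)) := by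
            refine mul_le_mul_of_nonneg_left ?_ (by positivity)
            refine mul_le_mul_of_nonneg_right ?_ (by positivity)
            exact mul_le_mul hBL (one_le_pow₀ hU1) (by norm_num) hBL0
    -- conclusion
    have hid : ∑ m ∈ Md E N, (ArithmeticFunction.moebius m : ℝ) * TT E m S G -
        R ^ k * (wt (k + 1) E * I) =
        ∑ m ∈ (Md E N).filter (fun m => ¬ m ≤ D),
          (ArithmeticFunction.moebius m : ℝ) * TT E m S G +
        ∑ m ∈ Md E D, (ArithmeticFunction.moebius m : ℝ) *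
          (TT E m S G - bd k E m * R ^ k * I) +
        R ^ k * I * (∑ m ∈ Md E D, (ArithmeticFunction.moebius m : ℝ) * bd k E m -
          wt (k + 1) E) := by
      rw [hsplit]
      have e1 : ∑ m ∈ Md E D, (ArithmeticFunction.moebius m : ℝ) *
          (TT E m S G - bd k E m * R ^ k * I) =
          ∑ m ∈ Md E D, (ArithmeticFunction.moebius m : ℝ) * TT E m S G -
          R ^ k * I * ∑ m ∈ Md E D, (ArithmeticFunction.moebius m : ℝ) * bd k E m := by
        rw [Finset.mul_sum, ← Finset.sum_sub_distrib]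
        refine Finset.sum_congr rfl (fun m _ => ?_)
        ring
      rw [e1]
      ring
    rw [hid]
    refine (abs_add_three _ _ _).trans ?_
    have hfin := add_le_add (add_le_add htail hsum) hdens
    refine hfin.trans ?_
    have hX0 : 0 ≤ (B + L) * U ^ (k + 6) * (R ^ k * Z) := by positivity
    have hc : 0 ≤ (2 ^ k + CW) * ((B + L) * U ^ (k + 6) * (R ^ k * Z)) := by positivity
    calc 2 * 2 ^ k * CS * ((B + L) * U ^ (k + 6) * (R ^ k * Z)) +
          CW * (CL + 1) * ((B + L) * U ^ (k + 6) * (R ^ k * Z)) +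
          2 * CW * CP * ((B + L) * U ^ (k + 6) * (R ^ k * Z))
        ≤ (2 ^ k + CW) * ((B + L) * U ^ (k + 6) * (R ^ k * Z)) +
          (2 * 2 ^ k * CS * ((B + L) * U ^ (k + 6) * (R ^ k * Z)) +
          CW * (CL + 1) * ((B + L) * U ^ (k + 6) * (R ^ k * Z)) +
          2 * CW * CP * ((B + L) * U ^ (k + 6) * (R ^ k * Z))) := by linarith
      _ = _ := by rw [hC1]; ring
  · -- the trivial case
    have hcase' : R < (qE E : ℝ) * (D : ℝ) ^ 2 := not_le.mp hcase
    have hqE3 : (qE E : ℝ) ≤ (E : ℝ) ^ 3 := by exact_mod_cast qE_le E hE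
    have hw0 : 0 < w := by linarith
    have hwE : w ≤ E := by
      have e1 : w ^ 4 < (E : ℝ) ^ 3 * w := by
        rw [hwR]
        exact hcase'.trans_le (mul_le_mul hqE3 hDw (by positivity) (by positivity))
      have e2 : w ^ 3 < (E : ℝ) ^ 3 := by
        have : w ^ 3 * w < (E : ℝ) ^ 3 * w := by
          calc w ^ 3 * w = w ^ 4 := by ring
            _ < _ := e1
        exact lt_of_mul_lt_mul_right this hw0.le
      exact (lt_of_pow_lt_pow_left₀ 3 (by linarith) e2).le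
    have hEZ : 1 ≤ (E : ℝ) * Z := hwZ.trans (mul_le_mul_of_nonneg_right hwE hZ0.le)
    have a1 : |∑' v : Fin k → ℤ, (Fix k E).indicator
        (fun v => gg k E κ lam f (fun i => (v i : ℝ) / R)) v| ≤ (2 * (lam * R)) ^ k * B := by
      rw [tsum_eq_sum (s := S)]
      · refine (Finset.abs_sum_le_sum_abs _ _).trans ?_
        have : ∀ v ∈ S, |(Fix k E).indicator
            (fun v => gg k E κ lam f (fun i => (v i : ℝ) / R)) v| ≤ B := by
          intro v _
          by_cases h : v ∈ Fix k E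
          · rw [Set.indicator_of_mem h]; exact gg_le E κ lam B f hB _
          · rw [Set.indicator_of_notMem h, abs_zero]; exact hB0
        refine (Finset.sum_le_sum this).trans ?_
        rw [Finset.sum_const, nsmul_eq_mul]
        exact mul_le_mul_of_nonneg_right hS3 hB0
      · intro v hv
        by_cases h : v ∈ Fix k E
        · rw [Set.indicator_of_mem h]; exact hS2 v hv
        · rw [Set.indicator_of_notMem h]
    have a2 : |R ^ k * (wt (k + 1) E * I)| ≤ R ^ k * (B * CW) := by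
      rw [abs_mul, abs_mul, abs_of_pos hRk, abs_of_nonneg hwt0]
      refine mul_le_mul_of_nonneg_left ?_ hRk.le
      calc wt (k + 1) E * |I| ≤ 1 * |I| := mul_le_mul_of_nonneg_right hw1 (abs_nonneg _)
        _ = |I| := one_mul _
        _ ≤ _ := hIb
    refine (abs_sub _ _).trans ((add_le_add a1 a2).trans ?_)
    have a3 : (2 * (lam * R)) ^ k * B + R ^ k * (B * CW) ≤
        (2 ^ k + CW) * (B * lam ^ k * R ^ k) := by
      have e1 : (2 * (lam * R)) ^ k * B = 2 ^ k * (B * lam ^ k * R ^ k) := by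
        rw [mul_pow, mul_pow]; ring
      have e2 : R ^ k * (B * CW) ≤ CW * (B * lam ^ k * R ^ k) := by
        have e3 : 0 ≤ CW * (B * R ^ k) := by positivity
        calc R ^ k * (B * CW) = CW * (B * R ^ k) * 1 := by ring
          _ ≤ CW * (B * R ^ k) * lam ^ k := mul_le_mul_of_nonneg_left hlk1 e3
          _ = _ := by ring
      rw [e1]
      calc _ ≤ 2 ^ k * (B * lam ^ k * R ^ k) + CW * (B * lam ^ k * R ^ k) :=
            add_le_add le_rfl e2
        _ = _ := by ring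
    refine a3.trans ?_
    have a4 : B * lam ^ k * R ^ k ≤ (B + L) * U ^ (k + 6) * (R ^ k * Z) := by
      have e1 : lam ^ k * (E : ℝ) ≤ U ^ (k + 6) := by
        calc lam ^ k * (E : ℝ) ≤ U ^ k * U := mul_le_mul hlkU hEU (by linarith) (by positivity)
          _ = U ^ (k + 1) := by ring
          _ ≤ _ := hpw (k + 1) (by omega)
      calc B * lam ^ k * R ^ k = B * lam ^ k * R ^ k * 1 := by ring
        _ ≤ B * lam ^ k * R ^ k * ((E : ℝ) * Z) := mul_le_mul_of_nonneg_left hEZ (by positivity)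
        _ = B * (lam ^ k * (E : ℝ)) * (R ^ k * Z) := by ring
        _ ≤ (B + L) * U ^ (k + 6) * (R ^ k * Z) := by
            refine mul_le_mul_of_nonneg_right ?_ (by positivity)
            exact mul_le_mul hBL e1 (by positivity) hBL0
    have hX0 : 0 ≤ (B + L) * U ^ (k + 6) * (R ^ k * Z) := by positivity
    have hc : 0 ≤ C1 * ((B + L) * U ^ (k + 6) * (R ^ k * Z)) := mul_nonneg hC10 hX0
    calc (2 ^ k + CW) * (B * lam ^ k * R ^ k) ≤
          (2 ^ k + CW) * ((B + L) * U ^ (k + 6) * (R ^ k * Z)) :=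
          mul_le_mul_of_nonneg_left a4 (by positivity)
      _ ≤ (2 ^ k + CW) * ((B + L) * U ^ (k + 6) * (R ^ k * Z)) +
          C1 * ((B + L) * U ^ (k + 6) * (R ^ k * Z)) := by linarith
      _ = _ := by ring

end Pool.Agent.H40.EQQ
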